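import Mathlib

/-!
# MP_8e2370_an: half-circle images under interlacing rational functions need not be convex

For every `k ≥ 3`, all poles `p 0 < … < p (k-1)` and every pair of neighbouring poles there are
positive coefficients such that the image of the upper half of the circle over the two poles is not
the boundary of any closed convex set.

Idea: let the coefficient of one other pole `p₀` be `1` and let all other coefficients be small. The
image then follows the half circle `1 / (z - p₀)` (which bulges downwards) and has both ends near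
the real axis before it finally turns to `-i ∞`.
-/

set_option autoImplicit false

open Filter Topology Set

namespace Pool.Agent.Results.MP_8e2370_an.NonconvexImages

/-- `R(z) = ∑_l α_l / (z - p_l)` -/
noncomputable def R {k : ℕ} (p α : Fin k → ℝ) (z : ℂ) : ℂ := ∑ l, (α l : ℂ) / (z - (p l : ℂ))

/-- the open upper half of the circle with diameter `[a, b]` -/
def upperHalfCircle (a b : ℝ) : Set ℂ := {z | 0 < z.im ∧ ‖z - (((a + b) / 2 : ℝ) : ℂ)‖ = (b - a) / 2}

/-- the parametrisation `z(t) = m + r cos t + i r sin t` -/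
noncomputable def zz (m r t : ℝ) : ℂ := ⟨m + r * Real.cos t, r * Real.sin t⟩

lemma zz_mem {a b t : ℝ} (hab : a < b) (h0 : 0 < t) (h1 : t < Real.pi) :
    zz ((a + b) / 2) ((b - a) / 2) t ∈ upperHalfCircle a b := by
  have hs := Real.sin_pos_of_pos_of_lt_pi h0 h1
  have hr : 0 < (b - a) / 2 := by linarith
  refine ⟨mul_pos hr hs, ?_⟩
  rw [← sq_eq_sq₀ (norm_nonneg _) hr.le, ← Complex.normSq_eq_norm_sq, Complex.normSq_apply]
  simp only [zz, Complex.sub_re, Complex.sub_im, Complex.ofReal_re, Complex.ofReal_im]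
  nlinarith [Real.sin_sq_add_cos_sq t]

lemma inv_im_neg {z : ℂ} (hz : 0 < z.im) (x : ℝ) : ((1 : ℂ) / (z - (x : ℂ))).im < 0 := by
  have h : 0 < (z - (x : ℂ)).im := by simpa using hz
  have hne : z - (x : ℂ) ≠ 0 := fun h0 => by rw [h0] at h; simp at h
  rw [one_div, Complex.inv_im]
  exact div_neg_of_neg_of_pos (by linarith) (Complex.normSq_pos.2 hne)

/-- A closed convex set with points going straight down contains all downward rays. -/
lemma ray {ι : Type} {F : Filter ι} [F.NeBot] {K : Set ℂ} (hK : IsClosed K) (hc : Convex ℝ K)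
    {D : ι → ℂ} (hD : ∀ᶠ n in F, D n ∈ K) {M : ℝ}
    (hre : ∀ᶠ n in F, |(D n).re| ≤ M) (him : Tendsto (fun n => (D n).im) F atBot)
    {w : ℂ} (hw : w ∈ K) {s : ℝ} (hs : 0 ≤ s) : (⟨w.re, w.im - s⟩ : ℂ) ∈ K := by
  set τ : ι → ℝ := fun n => s / (w.im - (D n).im) with hτ
  have hden : Tendsto (fun n => w.im - (D n).im) F atTop := by
    simpa [sub_eq_add_neg] using tendsto_atTop_add_const_left F w.im (tendsto_neg_atBot_atTop.comp him)
  have hτ0 : Tendsto τ F (𝓝 0) := hden.const_div_atTop s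
  have hev : ∀ᶠ n in F, 0 < w.im - (D n).im ∧ s ≤ w.im - (D n).im := by
    filter_upwards [hden.eventually_gt_atTop 0, hden.eventually_ge_atTop s] with n h1 h2
    exact ⟨h1, h2⟩
  have hmem : ∀ᶠ n in F, w + (τ n : ℂ) * (D n - w) ∈ K := by
    filter_upwards [hev, hD] with n ⟨h1, h2⟩ hDn
    have h3 : 0 ≤ τ n := div_nonneg hs h1.le
    have h4 : τ n ≤ 1 := (div_le_one h1).2 h2
    have := hc hw hDn (sub_nonneg.2 h4) h3 (by ring)
    convert this using 1
    simp only [Complex.real_smul]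
    push_cast
    ring
  have hlim : Tendsto (fun n => w + (τ n : ℂ) * (D n - w)) F (𝓝 (⟨w.re, w.im - s⟩ : ℂ)) := by
    rw [tendsto_iff_norm_sub_tendsto_zero]
    have hb : ∀ᶠ n in F, ‖w + (τ n : ℂ) * (D n - w) - ⟨w.re, w.im - s⟩‖ ≤
        τ n * (M + |w.re|) := by
      filter_upwards [hev, hre] with n ⟨h1, h2⟩ hren
      have h3 : 0 ≤ τ n := div_nonneg hs h1.le
      have e : w + (τ n : ℂ) * (D n - w) - ⟨w.re, w.im - s⟩ =
          ((τ n * ((D n).re - w.re) : ℝ) : ℂ) := by
        apply Complex.ext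
        · simp
        · simp only [Complex.sub_im, Complex.add_im, Complex.mul_im, Complex.ofReal_re,
            Complex.ofReal_im, Complex.sub_re]
          have : τ n * (w.im - (D n).im) = s := div_mul_cancel₀ s h1.ne'
          linarith
      rw [e, Complex.norm_real, Real.norm_eq_abs, abs_mul, abs_of_nonneg h3]
      refine mul_le_mul_of_nonneg_left ?_ h3
      calc |(D n).re - w.re| ≤ |(D n).re| + |w.re| := abs_sub _ _
        _ ≤ M + |w.re| := by linarith
    refine squeeze_zero' (Eventually.of_forall fun n => norm_nonneg _) hb ?_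
    simpa using hτ0.mul_const (M + |w.re|)
  exact hK.mem_of_tendsto hlim hmem

/-- Points strictly below a chord are interior points. -/
lemma interior_of {K : Set ℂ} (hc : Convex ℝ K)
    (hray : ∀ w ∈ K, ∀ s : ℝ, 0 ≤ s → (⟨w.re, w.im - s⟩ : ℂ) ∈ K) {w₁ w₂ w₃ : ℂ} (h1 : w₁ ∈ K)
    (h3 : w₃ ∈ K) (hx1 : w₁.re < w₂.re) (hx3 : w₂.re < w₃.re)
    (hy : w₂.im * (w₃.re - w₁.re) <
      w₁.im * (w₃.re - w₂.re) + w₃.im * (w₂.re - w₁.re)) : w₂ ∈ interior K := by
  set U : Set ℂ := {w | w₁.re < w.re ∧ w.re < w₃.re ∧ w.im * (w₃.re - w₁.re) <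
      w₁.im * (w₃.re - w.re) + w₃.im * (w.re - w₁.re)} with hU
  have hUo : IsOpen U := by
    have e : U = {w : ℂ | w₁.re < w.re} ∩ ({w : ℂ | w.re < w₃.re} ∩
        {w : ℂ | w.im * (w₃.re - w₁.re) < w₁.im * (w₃.re - w.re) + w₃.im * (w.re - w₁.re)}) := rfl
    rw [e]
    refine (isOpen_lt continuous_const Complex.continuous_re).inter
      ((isOpen_lt Complex.continuous_re continuous_const).inter (isOpen_lt ?_ ?_)) <;> fun_prop
  refine interior_maximal ?_ hUo ⟨hx1, hx3, hy⟩
  rintro w ⟨a1, a3, a⟩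
  have hd : 0 < w₃.re - w₁.re := by linarith
  set lam := (w₃.re - w.re) / (w₃.re - w₁.re) with hlam
  have l0 : 0 ≤ lam := div_nonneg (by linarith) hd.le
  have l1 : 0 ≤ 1 - lam := by
    rw [hlam, sub_nonneg, div_le_one hd]; linarith
  have e1 : lam * (w₃.re - w₁.re) = w₃.re - w.re := div_mul_cancel₀ _ hd.ne'
  have hm := hc h1 h3 l0 l1 (by ring)
  have hre : (lam • w₁ + (1 - lam) • w₃).re = w.re := by
    simp only [Complex.add_re, Complex.smul_re, smul_eq_mul]
    linarith
  have him : (lam • w₁ + (1 - lam) • w₃).im = lam * w₁.im + (1 - lam) * w₃.im := by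
    simp only [Complex.add_im, Complex.smul_im, smul_eq_mul]
  have hs : 0 ≤ lam * w₁.im + (1 - lam) * w₃.im - w.im := by
    have : 0 < (lam * w₁.im + (1 - lam) * w₃.im - w.im) * (w₃.re - w₁.re) := by
      have e2 : (lam * w₁.im + (1 - lam) * w₃.im - w.im) * (w₃.re - w₁.re) =
          w₁.im * (lam * (w₃.re - w₁.re)) + w₃.im * ((w₃.re - w₁.re) - lam * (w₃.re - w₁.re)) -
            w.im * (w₃.re - w₁.re) := by ring
      rw [e2, e1]
      linarith
    exact (pos_of_mul_pos_left this hd.le).le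
  have := hray _ hm _ hs
  convert this using 1
  apply Complex.ext
  · exact hre.symm
  · simp only [him]; ring

/-- the coefficients: `1` at the index `l₀` and `ε` elsewhere -/
noncomputable def coef {k : ℕ} (l₀ : Fin k) (ε : ℝ) : Fin k → ℝ := fun l => if l = l₀ then 1 else ε

lemma R_coef {k : ℕ} (p : Fin k → ℝ) (l₀ : Fin k) (ε : ℝ) (z : ℂ) :
    R p (coef l₀ ε) z = 1 / (z - (p l₀ : ℂ)) +
      (ε : ℂ) * ∑ l ∈ Finset.univ.erase l₀, 1 / (z - (p l : ℂ)) := by
  unfold R coef
  rw [← Finset.add_sum_erase _ _ (Finset.mem_univ l₀), if_pos rfl, Finset.mul_sum]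
  have e : ∀ l ∈ Finset.univ.erase l₀, (((if l = l₀ then 1 else ε : ℝ)) : ℂ) / (z - (p l : ℂ)) =
      (ε : ℂ) * (1 / (z - (p l : ℂ))) := by
    intro l hl
    rw [if_neg (Finset.ne_of_mem_erase hl)]
    ring
  rw [Finset.sum_congr rfl e, Complex.ofReal_one]

lemma norm_inv_le {m r t x : ℝ} (hr : 0 < r) (h0 : 0 < Real.sin t) :
    ‖(1 : ℂ) / (zz m r t - (x : ℂ))‖ ≤ 1 / (r * Real.sin t) := by
  rw [norm_div, norm_one]
  have h1 : r * Real.sin t ≤ ‖zz m r t - (x : ℂ)‖ := by
    have := Complex.abs_im_le_norm (zz m r t - (x : ℂ))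
    have e : (zz m r t - (x : ℂ)).im = r * Real.sin t := by simp [zz]
    rw [e, abs_of_pos (mul_pos hr h0)] at this
    exact this
  exact one_div_le_one_div_of_le (mul_pos hr h0) h1

lemma zz_cont (m r : ℝ) : Continuous (zz m r) := by
  have e : zz m r = fun t => ((m + r * Real.cos t : ℝ) : ℂ) +
      ((r * Real.sin t : ℝ) : ℂ) * Complex.I := by
    ext t
    apply Complex.ext
    · simp only [zz, Complex.add_re, Complex.mul_re, Complex.ofReal_re, Complex.ofReal_im,
        Complex.I_re, Complex.I_im]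
      ring
    · simp only [zz, Complex.add_im, Complex.mul_im, Complex.ofReal_re, Complex.ofReal_im,
        Complex.I_re, Complex.I_im]
      ring
  rw [e]
  fun_prop

/-- As `t → 0+` the value at `z(θ t)` of `R` with small coefficients `t ^ 2` tends to the value of
`1 / (z - p₀)`, provided that `sin (θ t) ≥ c t`. -/
lemma tendsto_R {k : ℕ} (p : Fin k → ℝ) (l₀ : Fin k) {m r c θ₀ : ℝ} (hr : 0 < r) (hc : 0 < c)
    {θ : ℝ → ℝ} (hθ : Tendsto θ (𝓝[>] 0) (𝓝 θ₀))
    (hs : ∀ᶠ t in 𝓝[>] (0 : ℝ), c * t ≤ Real.sin (θ t))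
    (hne : zz m r θ₀ - (p l₀ : ℂ) ≠ 0) :
    Tendsto (fun t => R p (coef l₀ (t ^ 2)) (zz m r (θ t))) (𝓝[>] 0)
      (𝓝 (1 / (zz m r θ₀ - (p l₀ : ℂ)))) := by
  have hzc := zz_cont m r
  have h1 : Tendsto (fun t => 1 / (zz m r (θ t) - (p l₀ : ℂ))) (𝓝[>] 0)
      (𝓝 (1 / (zz m r θ₀ - (p l₀ : ℂ)))) := by
    refine tendsto_const_nhds.div ?_ hne
    exact ((hzc.tendsto θ₀).comp hθ).sub_const _
  have h2 : Tendsto (fun t : ℝ => ((t ^ 2 : ℝ) : ℂ) *
      ∑ l ∈ Finset.univ.erase l₀, 1 / (zz m r (θ t) - (p l : ℂ))) (𝓝[>] 0) (𝓝 0) := by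
    rw [tendsto_zero_iff_norm_tendsto_zero]
    have hb : ∀ᶠ t in 𝓝[>] (0 : ℝ), ‖((t ^ 2 : ℝ) : ℂ) *
        ∑ l ∈ Finset.univ.erase l₀, 1 / (zz m r (θ t) - (p l : ℂ))‖ ≤
        t * (k * (1 / (r * c))) := by
      filter_upwards [hs, self_mem_nhdsWithin] with t h1 (h2 : 0 < t)
      have hsin : 0 < Real.sin (θ t) := (mul_pos hc h2).trans_le h1
      rw [norm_mul, Complex.norm_real, Real.norm_eq_abs, abs_of_pos (by positivity)]
      have h3 : ‖∑ l ∈ Finset.univ.erase l₀, (1 : ℂ) / (zz m r (θ t) - (p l : ℂ))‖ ≤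
          k * (1 / (r * (c * t))) := by
        refine (norm_sum_le _ _).trans ?_
        calc ∑ l ∈ Finset.univ.erase l₀, ‖(1 : ℂ) / (zz m r (θ t) - (p l : ℂ))‖
            ≤ ∑ l ∈ Finset.univ.erase l₀, (1 / (r * (c * t))) := by
              refine Finset.sum_le_sum fun l _ => ?_
              refine (norm_inv_le hr hsin).trans ?_
              apply one_div_le_one_div_of_le (by positivity)
              exact mul_le_mul_of_nonneg_left h1 hr.le
          _ = ((Finset.univ.erase l₀).card : ℝ) * (1 / (r * (c * t))) := by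
              rw [Finset.sum_const, nsmul_eq_mul]
          _ ≤ k * (1 / (r * (c * t))) := by
              apply mul_le_mul_of_nonneg_right _ (by positivity)
              have : (Finset.univ.erase l₀).card ≤ k := by
                refine (Finset.card_le_univ _).trans ?_
                simp
              exact_mod_cast this
      calc t ^ 2 * ‖∑ l ∈ Finset.univ.erase l₀, (1 : ℂ) / (zz m r (θ t) - (p l : ℂ))‖
          ≤ t ^ 2 * (k * (1 / (r * (c * t)))) := mul_le_mul_of_nonneg_left h3 (by positivity)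
        _ = t * (k * (1 / (r * c))) := by field_simp
    refine squeeze_zero' (Eventually.of_forall fun n => norm_nonneg _) hb ?_
    have : Tendsto (fun t : ℝ => t) (𝓝[>] 0) (𝓝 0) := tendsto_id.mono_left nhdsWithin_le_nhds
    simpa using this.mul_const ((k : ℝ) * (1 / (r * c)))
  have h3 := h1.add h2
  rw [add_zero] at h3
  refine h3.congr fun t => ?_
  rw [R_coef]

lemma zz_sub_normSq (m r t : ℝ) : Complex.normSq (zz m r t - ((m + r : ℝ) : ℂ)) =
    2 * r ^ 2 * (1 - Real.cos t) := by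
  rw [Complex.normSq_apply]
  simp only [zz, Complex.sub_re, Complex.sub_im, Complex.ofReal_re, Complex.ofReal_im]
  nlinarith [Real.sin_sq_add_cos_sq t]

lemma cos_lt {t : ℝ} (h0 : 0 < t) (h1 : t < Real.pi) : Real.cos t < 1 := by
  rcases (Real.cos_le_one t).lt_or_eq with h | h
  · exact h
  · rw [Real.cos_eq_one_iff_of_lt_of_lt (by linarith [Real.pi_pos]) (by linarith)] at h
    exact absurd h h0.ne'

lemma re_end {m r t : ℝ} (hr : 0 < r) (h0 : 0 < t) (h1 : t < Real.pi) :
    ((1 : ℂ) / (zz m r t - ((m + r : ℝ) : ℂ))).re = -(1 / (2 * r)) := by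
  rw [one_div, Complex.inv_re, zz_sub_normSq]
  have e : (zz m r t - ((m + r : ℝ) : ℂ)).re = -(r * (1 - Real.cos t)) := by
    simp only [zz, Complex.sub_re, Complex.ofReal_re]; ring
  rw [e]
  have : 0 < 1 - Real.cos t := by linarith [cos_lt h0 h1]
  field_simp

lemma im_end {m r t : ℝ} (hr : 0 < r) (h0 : 0 < t) (h1 : t ≤ 1) :
    ((1 : ℂ) / (zz m r t - ((m + r : ℝ) : ℂ))).im ≤ -(1 / (2 * r * t)) := by
  have hpi := Real.pi_gt_three
  rw [one_div, Complex.inv_im, zz_sub_normSq]
  have e : (zz m r t - ((m + r : ℝ) : ℂ)).im = r * Real.sin t := by simp [zz]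
  rw [e, neg_div, neg_le_neg_iff]
  have h2 : 0 < 1 - Real.cos t := by linarith [cos_lt h0 (by linarith)]
  have h3 : 1 - Real.cos t ≤ t ^ 2 / 2 := by linarith [Real.one_sub_sq_div_two_le_cos (x := t)]
  have h4 : t / 2 ≤ Real.sin t := by
    have h5 := Real.mul_le_sin h0.le (by linarith : t ≤ Real.pi / 2)
    have h6 : (1 : ℝ) / 2 ≤ 2 / Real.pi := by
      rw [div_le_div_iff₀ (by norm_num) Real.pi_pos]
      linarith [Real.pi_lt_four]
    nlinarith
  rw [div_le_div_iff₀ (by positivity) (by positivity)]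
  have h7 : 0 < r ^ 2 := by positivity
  nlinarith [mul_le_mul_of_nonneg_left h3 h7.le, mul_le_mul_of_nonneg_left h4 (mul_pos h7 h0).le]

/-- The curve goes straight down near the endpoint `b = m + r`. -/
lemma down {k : ℕ} (p : Fin k → ℝ) (α : Fin k → ℝ) (hα : ∀ l, 0 < α l) {m r : ℝ} (hr : 0 < r)
    (l₁ : Fin k) (hl₁ : p l₁ = m + r) :
    (∃ M : ℝ, ∀ᶠ t in 𝓝[>] (0 : ℝ), |(R p α (zz m r t)).re| ≤ M) ∧
      Tendsto (fun t => (R p α (zz m r t)).im) (𝓝[>] 0) atBot := by
  have hpi := Real.pi_gt_three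
  have hsmall : ∀ᶠ t in 𝓝[>] (0 : ℝ), 0 < t ∧ t ≤ 1 := by
    filter_upwards [self_mem_nhdsWithin,
      mem_nhdsWithin_of_mem_nhds (Iic_mem_nhds (show (0 : ℝ) < 1 by norm_num))] with t h1 h2
    exact ⟨h1, h2⟩
  constructor
  · have hterm : ∀ l : Fin k, ∃ M : ℝ, ∀ᶠ t in 𝓝[>] (0 : ℝ),
        |((1 : ℂ) / (zz m r t - (p l : ℂ))).re| ≤ M := by
      intro l
      by_cases hl : p l = m + r
      · refine ⟨1 / (2 * r), ?_⟩
        filter_upwards [hsmall] with t ⟨h1, h2⟩
        rw [hl, re_end hr h1 (by linarith), abs_neg, abs_of_pos (by positivity)]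
      · have hne : zz m r 0 - (p l : ℂ) ≠ 0 := by
          intro h0
          apply hl
          have := congrArg Complex.re h0
          simp [zz] at this
          linarith
        have hlim : Tendsto (fun t => ((1 : ℂ) / (zz m r t - (p l : ℂ))).re) (𝓝[>] 0)
            (𝓝 ((1 : ℂ) / (zz m r 0 - (p l : ℂ))).re) := by
          apply (Complex.continuous_re.tendsto _).comp
          refine tendsto_const_nhds.div ?_ hne
          exact (((zz_cont m r).tendsto 0).mono_left nhdsWithin_le_nhds).sub_const _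
        refine ⟨|((1 : ℂ) / (zz m r 0 - (p l : ℂ))).re| + 1, ?_⟩
        filter_upwards [hlim.abs.eventually (gt_mem_nhds (lt_add_one _))] with t ht
        exact ht.le
    choose M hM using hterm
    refine ⟨∑ l, α l * M l, ?_⟩
    filter_upwards [eventually_all.2 hM] with t ht
    unfold R
    rw [Complex.re_sum]
    refine (Finset.abs_sum_le_sum_abs _ _).trans (Finset.sum_le_sum fun l _ => ?_)
    have e : ((α l : ℂ) / (zz m r t - (p l : ℂ))).re =
        α l * ((1 : ℂ) / (zz m r t - (p l : ℂ))).re := by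
      rw [← Complex.re_ofReal_mul]; congr 1; ring
    rw [e, abs_mul, abs_of_pos (hα l)]
    exact mul_le_mul_of_nonneg_left (ht l) (hα l).le
  · have hb : ∀ᶠ t in 𝓝[>] (0 : ℝ), (R p α (zz m r t)).im ≤ α l₁ * (-(1 / (2 * r * t))) := by
      filter_upwards [hsmall] with t ⟨h1, h2⟩
      unfold R
      rw [Complex.im_sum, ← Finset.add_sum_erase _ _ (Finset.mem_univ l₁)]
      have e : ∀ l, ((α l : ℂ) / (zz m r t - (p l : ℂ))).im =
          α l * ((1 : ℂ) / (zz m r t - (p l : ℂ))).im := fun l => by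
        rw [← Complex.im_ofReal_mul]; congr 1; ring
      have hz : 0 < (zz m r t).im :=
        mul_pos hr (Real.sin_pos_of_pos_of_lt_pi h1 (by linarith))
      have h3 : ∑ l ∈ Finset.univ.erase l₁, ((α l : ℂ) / (zz m r t - (p l : ℂ))).im ≤ 0 := by
        refine Finset.sum_nonpos fun l _ => ?_
        rw [e l]
        exact mul_nonpos_of_nonneg_of_nonpos (hα l).le (inv_im_neg hz _).le
      have h4 := mul_le_mul_of_nonneg_left (im_end (m := m) hr h1 h2) (hα l₁).le
      rw [← hl₁] at h4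
      rw [e l₁]
      linarith
    refine tendsto_atBot_mono' _ hb ?_
    have h5 : Tendsto (fun t : ℝ => 1 / (2 * r * t)) (𝓝[>] 0) atTop := by
      have h6 : Tendsto (fun t : ℝ => t⁻¹) (𝓝[>] 0) atTop := tendsto_inv_nhdsGT_zero
      have h7 := h6.const_mul_atTop (show (0 : ℝ) < 1 / (2 * r) by positivity)
      refine h7.congr fun t => ?_
      rw [one_div, one_div, mul_inv (2 * r) t]
    have h8 := (tendsto_neg_atTop_atBot.comp h5).const_mul_atBot (hα l₁)
    exact h8

/-- **Failure of convexity for every number of poles, all poles and every index.** For all `k ≥ 3`,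
all real `p 0 < p 1 < … < p (k - 1)` and every `j` with `j + 1 < k` there are positive coefficients
`α` such that, for `R(z) = ∑_l α_l / (z - p_l)`, the image under `R` of the open upper half of the
circle with diameter `[p j, p (j + 1)]` is not the boundary of any closed convex set. -/
theorem result (k : ℕ) (hk : 3 ≤ k) (p : Fin k → ℝ) (hp : StrictMono p) (j : ℕ) (hj : j + 1 < k) :
    ∃ α : Fin k → ℝ, (∀ l, 0 < α l) ∧
      ¬ ∃ K : Set ℂ, IsClosed K ∧ Convex ℝ K ∧
        frontier K = R p α '' upperHalfCircle (p ⟨j, by omega⟩) (p ⟨j + 1, hj⟩) := by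
  set ja : Fin k := ⟨j, by omega⟩ with hja
  set jb : Fin k := ⟨j + 1, hj⟩ with hjb
  set a := p ja with ha
  set b := p jb with hb
  have hab : a < b := hp (by rw [hja, hjb]; exact Fin.mk_lt_mk.2 (Nat.lt_succ_self j))
  set m := (a + b) / 2 with hm
  set r := (b - a) / 2 with hr
  have hr0 : 0 < r := by rw [hr]; linarith
  -- another pole
  obtain ⟨l₀, h0⟩ : ∃ l₀ : Fin k, p l₀ < a ∨ b < p l₀ := by
    by_cases h : j + 2 < k
    · exact ⟨⟨j + 2, h⟩, Or.inr (hp (by rw [hjb]; exact Fin.mk_lt_mk.2 (by omega)))⟩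
    · exact ⟨⟨0, by omega⟩, Or.inl (hp (by rw [hja]; exact Fin.mk_lt_mk.2 (by omega)))⟩
  set c := m - p l₀ with hc
  have hc0 : c < -r ∨ r < c := by
    rcases h0 with h | h
    · right; rw [hc, hm, hr]; linarith
    · left; rw [hc, hm, hr]; linarith
  -- the three limit points
  have e0 : (1 : ℂ) / (zz m r 0 - (p l₀ : ℂ)) = ((1 / (c + r) : ℝ) : ℂ) := by
    have : zz m r 0 - (p l₀ : ℂ) = ((c + r : ℝ) : ℂ) := by
      apply Complex.ext
      · simp [zz, hc]; ring
      · simp [zz]
    rw [this]; push_cast; ring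
  have e1 : (1 : ℂ) / (zz m r Real.pi - (p l₀ : ℂ)) = ((1 / (c - r) : ℝ) : ℂ) := by
    have : zz m r Real.pi - (p l₀ : ℂ) = ((c - r : ℝ) : ℂ) := by
      apply Complex.ext
      · simp [zz, hc]; ring
      · simp [zz]
    rw [this]; push_cast; ring
  have hcr : c + r ≠ 0 := by rcases hc0 with h | h <;> intro h' <;> linarith
  have hcr' : c - r ≠ 0 := by rcases hc0 with h | h <;> intro h' <;> linarith
  have e2 : (1 : ℂ) / (zz m r (Real.pi / 2) - (p l₀ : ℂ)) =
      ⟨c / (c ^ 2 + r ^ 2), -r / (c ^ 2 + r ^ 2)⟩ := by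
    have : zz m r (Real.pi / 2) - (p l₀ : ℂ) = ⟨c, r⟩ := by
      apply Complex.ext
      · simp [zz, hc]
      · simp [zz]
    rw [this, one_div]
    apply Complex.ext
    · rw [Complex.inv_re, Complex.normSq_apply]; simp [pow_two]
    · rw [Complex.inv_im, Complex.normSq_apply]; simp [pow_two]
  have hid : Tendsto (fun t : ℝ => t) (𝓝[>] 0) (𝓝 0) := tendsto_id.mono_left nhdsWithin_le_nhds
  have hsmall : ∀ᶠ t in 𝓝[>] (0 : ℝ), 0 < t ∧ t ≤ 1 := by
    filter_upwards [self_mem_nhdsWithin,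
      mem_nhdsWithin_of_mem_nhds (Iic_mem_nhds (show (0 : ℝ) < 1 by norm_num))] with t h1 h2
    exact ⟨h1, h2⟩
  have hpi := Real.pi_gt_three
  have hsin : ∀ᶠ t in 𝓝[>] (0 : ℝ), 1 / 2 * t ≤ Real.sin t := by
    filter_upwards [hsmall] with t ⟨h1, h2⟩
    have h5 := Real.mul_le_sin h1.le (by linarith : t ≤ Real.pi / 2)
    have h6 : (1 : ℝ) / 2 ≤ 2 / Real.pi := by
      rw [div_le_div_iff₀ (by norm_num) Real.pi_pos]
      linarith [Real.pi_lt_four]
    nlinarith
  have t0 := tendsto_R p l₀ (m := m) (θ := fun t => t) hr0 (show (0 : ℝ) < 1 / 2 by norm_num) hid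
    hsin (by
      intro h
      have := congrArg Complex.re h
      simp [zz] at this
      apply hcr
      rw [hc]; linarith)
  have t1 := tendsto_R p l₀ (m := m) (θ := fun t => Real.pi - t) (θ₀ := Real.pi) hr0
    (show (0 : ℝ) < 1 / 2 by norm_num) (by simpa using (tendsto_const_nhds (x := Real.pi)).sub hid)
    (by filter_upwards [hsin] with t ht; rwa [Real.sin_pi_sub]) (by
      intro h
      have := congrArg Complex.re h
      simp [zz] at this
      apply hcr'
      rw [hc]; linarith)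
  have t2 := tendsto_R p l₀ (m := m) (θ := fun _ => Real.pi / 2) (θ₀ := Real.pi / 2) hr0
    (show (0 : ℝ) < 1 / 2 by norm_num) tendsto_const_nhds
    (by filter_upwards [hsmall] with t ⟨h1, h2⟩; rw [Real.sin_pi_div_two]; linarith) (by
      intro h
      have := congrArg Complex.im h
      simp [zz] at this
      exact hr0.ne' this)
  rw [e0] at t0
  rw [e1] at t1
  rw [e2] at t2
  have r0 := (Complex.continuous_re.tendsto _).comp t0
  have r1 := (Complex.continuous_re.tendsto _).comp t1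
  have r2 := (Complex.continuous_re.tendsto _).comp t2
  have i0 := (Complex.continuous_im.tendsto _).comp t0
  have i1 := (Complex.continuous_im.tendsto _).comp t1
  have i2 := (Complex.continuous_im.tendsto _).comp t2
  rw [Complex.ofReal_re] at r0 r1
  rw [Complex.ofReal_im] at i0 i1
  simp only at r2 i2
  have hord : 1 / (c + r) < c / (c ^ 2 + r ^ 2) ∧ c / (c ^ 2 + r ^ 2) < 1 / (c - r) := by
    have hden : 0 < c ^ 2 + r ^ 2 := by positivity
    rcases hc0 with h | h
    · have h1 : c + r < 0 := by linarith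
      have h2 : c - r < 0 := by linarith
      constructor
      · rw [div_lt_iff_of_neg h1, div_mul_eq_mul_div, div_lt_iff₀ hden]
        nlinarith
      · rw [lt_div_iff_of_neg h2, div_mul_eq_mul_div, lt_div_iff₀ hden]
        nlinarith
    · have h1 : 0 < c + r := by linarith
      have h2 : 0 < c - r := by linarith
      constructor
      · rw [div_lt_div_iff₀ h1 hden]
        nlinarith
      · rw [div_lt_div_iff₀ hden h2]
        nlinarith
  have hbelow : -r / (c ^ 2 + r ^ 2) * (1 / (c - r) - 1 / (c + r)) <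
      0 * (1 / (c - r) - c / (c ^ 2 + r ^ 2)) + 0 * (c / (c ^ 2 + r ^ 2) - 1 / (c + r)) := by
    have hden : 0 < c ^ 2 + r ^ 2 := by positivity
    have h1 : -r / (c ^ 2 + r ^ 2) < 0 := div_neg_of_neg_of_pos (by linarith) hden
    have h2 : 0 < 1 / (c - r) - 1 / (c + r) := by linarith [hord.1, hord.2]
    nlinarith
  have ev1 := r0.eventually_lt r2 hord.1
  have ev2 := r2.eventually_lt r1 hord.2
  have ev3 := (i2.mul (r1.sub r0)).eventually_lt
    ((i0.mul (r1.sub r2)).add (i1.mul (r2.sub r0))) hbelow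
  obtain ⟨t, ⟨ht0, ht1⟩, h01, h21, hlt⟩ := (hsmall.and (ev1.and (ev2.and ev3))).exists
  simp only [Function.comp] at h01 h21 hlt
  refine ⟨coef l₀ (t ^ 2), fun l => ?_, ?_⟩
  · unfold coef; split_ifs <;> positivity
  rintro ⟨K, hKc, hKx, hKf⟩
  have hα : ∀ l, 0 < coef l₀ (t ^ 2) l := fun l => by unfold coef; split_ifs <;> positivity
  have hsub : ∀ s, 0 < s → s < Real.pi → R p (coef l₀ (t ^ 2)) (zz m r s) ∈ frontier K := by
    intro s h1 h2
    rw [hKf]
    exact ⟨_, zz_mem hab h1 h2, rfl⟩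
  obtain ⟨⟨M, hM⟩, hdown⟩ := down p (coef l₀ (t ^ 2)) hα (m := m) (r := r) hr0 jb
    (by rw [← hb, hm, hr]; ring)
  have hray : ∀ w ∈ K, ∀ s : ℝ, 0 ≤ s → (⟨w.re, w.im - s⟩ : ℂ) ∈ K := by
    intro w hw s hs
    refine ray hKc hKx (F := 𝓝[>] (0 : ℝ)) ?_ hM hdown hw hs
    filter_upwards [hsmall] with s ⟨h1, h2⟩
    exact hKc.frontier_subset (hsub s h1 (by linarith))
  have hint := interior_of hKx hray (hKc.frontier_subset (hsub t ht0 (by linarith)))
    (hKc.frontier_subset (hsub (Real.pi - t) (by linarith) (by linarith))) h01 h21 hlt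
  exact (hsub (Real.pi / 2) (by linarith) (by linarith)).2 hint

end Pool.Agent.Results.MP_8e2370_an.NonconvexImages
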